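import Pool.Agent.Helper79.SlicedKnot
import Pool.Agent.Helper79.SlicedExist

/-!
The minimal degree in `a` of `F_K(a⁻¹, z)` may exceed twice the unknotting number.
-/

set_option autoImplicit false

namespace Pool.Agent.Results.MP_1130ce_gt.KauffmanDegreeExceedsTwiceU

open Pool.Agent.Helper79.Sliced

/-- Kauffman's regular isotopy invariant `Λ` of unoriented link diagrams exists and is unique, and
there is a knot `K` (given by a diagram `D` with writhe `w`) for which the least exponent `m` of
`a` in `F_K(a⁻¹, z)` is larger than `2 u(K)`. Here `F_K = a ^ (-w) Λ_D`. -/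
theorem result : ∃ Λ : List Piece → Laur, IsKauffmanLambda Λ ∧
    (∀ Λ' : List Piece → Laur, IsKauffmanLambda Λ' →
      ∀ D : List Piece, IsDiagram D → Λ' D = Λ D) ∧
    ∃ (D : List Piece) (w m : ℤ), IsKnotDiagram D ∧ HasWrithe D w ∧
      IsMinDegInv (kauffmanF Λ D w) m ∧ UnknottedBy (unknottingNumber D) D ∧
      2 * (unknottingNumber D : ℤ) < m := by
  refine ⟨kauffmanLambda, isKauffmanLambda_kauffmanLambda,
    fun Λ' h D hD => kauffmanLambda_unique h hD, knotDiagram, 10, 7, isKnotDiagram_knot,
    hasWrithe_knot, isMinDegInv_knot isKauffmanLambda_kauffmanLambda, ?_, ?_⟩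
  · exact Nat.sInf_mem (s := {n : ℕ | UnknottedBy n knotDiagram}) ⟨3, unknottedBy_knot⟩
  · have := unknottingNumber_knot
    omega

end Pool.Agent.Results.MP_1130ce_gt.KauffmanDegreeExceedsTwiceU
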